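import Mathlib

/-!
# Combinatorial core for a bidemocratic Schauder basis of `ℓ₂`

Index `n` stands for the dyadic interval of cells centred at `n + 1`; its scale is the 2-adic
valuation of `n + 1`.
-/

open Finset

namespace Pool.Agent.Lib.MPc77635.SC

/-- Block number. -/
def blk (n : ℕ) : ℕ := Nat.log 2 (n + 1)

/-- The block `L`. -/
def B (L : ℕ) : Finset ℕ := Finset.Ico (2 ^ L - 1) (2 ^ (L + 1) - 1)

/-- The scale of `n`. -/
def val (n : ℕ) : ℕ := padicValNat 2 (n + 1)

/-- Cell `c` belongs to the dyadic interval of `n` (and to the same block). -/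
def inc (n c : ℕ) : Prop := blk n = blk c ∧ (n + 1) / 2 ^ (val n + 1) = (c + 1) / 2 ^ (val n + 1)

instance (n c : ℕ) : Decidable (inc n c) := by unfold inc; infer_instance

lemma mem_B {n N : ℕ} : n ∈ B N ↔ blk n = N := by
  unfold B blk
  rw [Finset.mem_Ico, Nat.log_eq_iff (Or.inr ⟨by norm_num, by omega⟩)]
  have h1 : 1 ≤ 2 ^ N := Nat.one_le_two_pow
  have h2 : 1 ≤ 2 ^ (N + 1) := Nat.one_le_two_pow
  omega

lemma pow_blk_le (n : ℕ) : 2 ^ blk n ≤ n + 1 := Nat.pow_log_le_self 2 (by omega)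

lemma lt_pow_blk (n : ℕ) : n + 1 < 2 ^ (blk n + 1) := Nat.lt_pow_succ_log_self (by norm_num) _

lemma blk_eq {n L : ℕ} (h1 : 2 ^ L ≤ n + 1) (h2 : n + 1 < 2 ^ (L + 1)) : blk n = L := by
  unfold blk
  rw [Nat.log_eq_iff (Or.inr ⟨by norm_num, by omega⟩)]
  exact ⟨h1, h2⟩

lemma blk_mono {n m : ℕ} (h : n ≤ m) : blk n ≤ blk m := Nat.log_mono_right (by omega)

lemma val_le (n : ℕ) : val n ≤ blk n := by
  unfold blk
  apply Nat.le_log_of_pow_le (by norm_num)
  exact Nat.le_of_dvd (by omega) pow_padicValNat_dvd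

lemma val_spec (n : ℕ) : ∃ j, n + 1 = 2 ^ val n * (2 * j + 1) := by
  have h1 : 2 ^ val n ∣ n + 1 := pow_padicValNat_dvd
  have h2 : ¬ 2 ^ (val n + 1) ∣ n + 1 :=
    pow_succ_padicValNat_not_dvd (by omega)
  obtain ⟨k, hk⟩ := h1
  rcases Nat.even_or_odd' k with ⟨j, hj | hj⟩
  · exfalso
    apply h2
    refine ⟨j, ?_⟩
    rw [hk, hj, pow_succ]
    ring
  · exact ⟨j, by rw [← hj]; exact hk⟩

lemma div_of_val {n v j : ℕ} (h : n + 1 = 2 ^ v * (2 * j + 1)) : (n + 1) / 2 ^ (v + 1) = j := by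
  rw [h, pow_succ, Nat.mul_div_mul_left _ _ (by positivity)]
  omega

lemma val_of {n v j : ℕ} (h : n + 1 = 2 ^ v * (2 * j + 1)) : val n = v := by
  unfold val
  rw [h, padicValNat.mul (by positivity) (by omega), padicValNat.prime_pow,
    padicValNat.eq_zero_of_not_dvd (by omega)]
  rfl

lemma decomp (n : ℕ) :
    n + 1 = 2 ^ (val n + 1) * ((n + 1) / 2 ^ (val n + 1)) + 2 ^ val n := by
  obtain ⟨j, hj⟩ := val_spec n
  rw [div_of_val hj]
  conv_lhs => rw [hj]
  ring

lemma inc_unique {n n' c : ℕ} (h : inc n c) (h' : inc n' c) (hv : val n = val n') : n = n' := by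
  have e1 := decomp n
  have e2 := decomp n'
  rw [h.2] at e1
  rw [h'.2, ← hv] at e2
  omega

lemma inc_self (n : ℕ) : inc n n := ⟨rfl, rfl⟩

lemma inc_convex_right {n t c : ℕ} (h : inc n c) (h1 : n ≤ t) (h2 : t ≤ c) : inc n t := by
  refine ⟨le_antisymm (blk_mono h1) ((blk_mono h2).trans_eq h.1.symm), le_antisymm ?_ ?_⟩
  · exact Nat.div_le_div_right (by omega)
  · rw [h.2]
    exact Nat.div_le_div_right (by omega)

lemma inc_convex_left {n t c : ℕ} (h : inc n c) (h1 : c ≤ t) (h2 : t ≤ n) : inc n t := by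
  refine ⟨le_antisymm (h.1.trans_le (blk_mono h1)) (blk_mono h2), le_antisymm ?_ ?_⟩
  · rw [h.2]
    exact Nat.div_le_div_right (by omega)
  · exact Nat.div_le_div_right (by omega)

/-- If the intervals of `m` and `n` meet and `t` separates `m` and `n`, then `t` belongs to one of
the two intervals. -/
lemma inc_of_sep {m n t c : ℕ} (hm : inc m c) (hn : inc n c) (h : m < t ∧ t ≤ n) :
    inc m t ∨ inc n t := by
  rcases le_total t c with h1 | h1
  · exact Or.inl (inc_convex_right hm h.1.le h1)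
  · exact Or.inr (inc_convex_left hn h1 h.2)

lemma card_div_le (v k : ℕ) (U : Finset ℕ) :
    (U.filter fun c => k = (c + 1) / 2 ^ (v + 1)).card ≤ 2 ^ (v + 1) := by
  have hp : 0 < 2 ^ (v + 1) := by positivity
  have hsub : (U.filter fun c => k = (c + 1) / 2 ^ (v + 1)) ⊆
      Finset.Ico (2 ^ (v + 1) * k - 1) (2 ^ (v + 1) * k - 1 + 2 ^ (v + 1)) := by
    intro c hc
    have h := (Finset.mem_filter.1 hc).2
    rw [Finset.mem_Ico]
    have e := Nat.div_add_mod (c + 1) (2 ^ (v + 1))
    have e2 := Nat.mod_lt (c + 1) hp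
    rw [← h] at e
    omega
  refine (Finset.card_le_card hsub).trans ?_
  rw [Nat.card_Ico]
  omega

lemma card_inc_le (n : ℕ) (U : Finset ℕ) : (U.filter (inc n)).card ≤ 2 ^ (val n + 1) := by
  refine le_trans (Finset.card_le_card ?_) (card_div_le (val n) ((n + 1) / 2 ^ (val n + 1)) U)
  intro c hc
  rw [Finset.mem_filter] at hc ⊢
  exact ⟨hc.1, hc.2.2⟩

lemma le_card_inc (n : ℕ) : 2 ^ val n ≤ ((B (blk n)).filter (inc n)).card := by
  have hsub : Finset.Ico n (n + 2 ^ val n) ⊆ (B (blk n)).filter (inc n) := by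
    intro c hc
    rw [Finset.mem_Ico] at hc
    have hp : 0 < 2 ^ (val n + 1) := by positivity
    have e := decomp n
    set k := (n + 1) / 2 ^ (val n + 1) with hk
    have e3 : 2 ^ (val n + 1) = 2 * 2 ^ val n := by rw [pow_succ]; ring
    have hdiv : (c + 1) / 2 ^ (val n + 1) = k := by
      apply Nat.div_eq_of_lt_le
      · rw [mul_comm]
        omega
      · rw [Nat.succ_mul, mul_comm]
        omega
    have hblk : blk c = blk n := by
      apply blk_eq
      · have := pow_blk_le n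
        omega
      · -- `c + 1 < 2 ^ (val n + 1) * (k + 1) ≤ 2 ^ (blk n + 1)`
        have h1 : c + 1 < 2 ^ (val n + 1) * (k + 1) := by
          rw [mul_add, mul_one]
          omega
        have h2 : 2 ^ (blk n + 1) = 2 ^ (val n + 1) * 2 ^ (blk n - val n) := by
          rw [← pow_add]
          congr 1
          have := val_le n
          omega
        have h3 : k < 2 ^ (blk n - val n) := by
          rw [hk, Nat.div_lt_iff_lt_mul hp, mul_comm, ← h2]
          exact lt_pow_blk n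
        calc c + 1 < 2 ^ (val n + 1) * (k + 1) := h1
          _ ≤ 2 ^ (val n + 1) * 2 ^ (blk n - val n) := Nat.mul_le_mul_left _ h3
          _ = _ := h2.symm
    rw [Finset.mem_filter, mem_B]
    exact ⟨hblk, hblk.symm, by rw [hdiv]⟩
  have := Finset.card_le_card hsub
  rw [Nat.card_Ico] at this
  omega

lemma exists_inc (c v : ℕ) (hv : v ≤ blk c) : ∃ n, blk n = blk c ∧ val n = v ∧ inc n c := by
  have hp : 0 < 2 ^ (v + 1) := by positivity
  set k := (c + 1) / 2 ^ (v + 1) with hk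
  obtain ⟨n, hn⟩ : ∃ n, n + 1 = 2 ^ v * (2 * k + 1) :=
    ⟨2 ^ v * (2 * k + 1) - 1, Nat.succ_pred_eq_of_pos (Nat.mul_pos (by positivity) (by omega))⟩
  have hval : val n = v := val_of hn
  have hdiv := div_of_val hn
  have h2 : 2 ^ (blk c + 1) = 2 ^ (v + 1) * 2 ^ (blk c - v) := by
    rw [← pow_add]
    congr 1
    omega
  have h3 : k < 2 ^ (blk c - v) := by
    rw [hk, Nat.div_lt_iff_lt_mul hp, mul_comm, ← h2]
    exact lt_pow_blk c
  have e3 : 2 ^ (v + 1) = 2 * 2 ^ v := by rw [pow_succ]; ring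
  have hup : n + 1 < 2 ^ (blk c + 1) := by
    calc n + 1 = 2 ^ v * (2 * k + 1) := hn
      _ < 2 ^ (v + 1) * (k + 1) := by
          rw [e3]
          have : 0 < 2 ^ v := by positivity
          nlinarith
      _ ≤ 2 ^ (v + 1) * 2 ^ (blk c - v) := Nat.mul_le_mul_left _ h3
      _ = _ := h2.symm
  have hlo : 2 ^ blk c ≤ n + 1 := by
    rw [hn]
    rcases Nat.eq_or_lt_of_le hv with h | h
    · rw [← h]
      exact Nat.le_mul_of_pos_right _ (by omega)
    · have h4 : 2 ^ blk c = 2 ^ (v + 1) * 2 ^ (blk c - v - 1) := by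
        rw [← pow_add]
        congr 1
        omega
      have h5 : 2 ^ (blk c - v - 1) ≤ k := by
        rw [hk, Nat.le_div_iff_mul_le hp, mul_comm, ← h4]
        exact pow_blk_le c
      calc 2 ^ blk c = 2 ^ (v + 1) * 2 ^ (blk c - v - 1) := h4
        _ ≤ 2 ^ (v + 1) * k := Nat.mul_le_mul_left _ h5
        _ ≤ 2 ^ v * (2 * k + 1) := by
            rw [e3]
            have : 0 < 2 ^ v := by positivity
            nlinarith
  have hb : blk n = blk c := blk_eq hlo hup
  exact ⟨n, hb, hval, hb, by rw [hval, hdiv, hk]⟩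

lemma card_chain_le (c : ℕ) (M : Finset ℕ) :
    (M.filter fun m => inc m c).card ≤ blk c + 1 := by
  have h : ((M.filter fun m => inc m c).image val) ⊆ Finset.range (blk c + 1) := by
    intro v hv
    obtain ⟨m, hm, rfl⟩ := Finset.mem_image.1 hv
    have := (Finset.mem_filter.1 hm).2.1
    rw [Finset.mem_range, ← this]
    have := val_le m
    omega
  rw [← Finset.card_image_of_injOn (f := val), ← Finset.card_range (blk c + 1)]
  · exact Finset.card_le_card h
  · intro a ha b hb hab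
    rw [Finset.mem_coe, Finset.mem_filter] at ha hb
    exact inc_unique ha.2 hb.2 hab

/-! ### The weights and the kernel -/

/-- `1 / √2`. -/
noncomputable def r : ℝ := (√2)⁻¹

lemma r_pos : 0 < r := by unfold r; positivity

lemma r_mul_r : r * r = 1 / 2 := by
  unfold r
  rw [← mul_inv, Real.mul_self_sqrt (by norm_num)]
  norm_num

lemma r_lt : r < 0.7072 := by
  have h := r_mul_r
  have h2 := r_pos
  nlinarith

lemma inv_one_sub_r : (1 - r)⁻¹ ≤ 3.416 := by
  have h := r_lt
  rw [inv_le_comm₀ (by linarith) (by norm_num)]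
  norm_num
  linarith

/-- The normalising weight of `n`. -/
noncomputable def g (n : ℕ) : ℝ := r ^ val n

lemma g_pos (n : ℕ) : 0 < g n := pow_pos r_pos _

lemma g_sq (n : ℕ) : g n ^ 2 = (1 / 2) ^ val n := by
  unfold g
  rw [← pow_mul, mul_comm, pow_mul, sq, r_mul_r]

/-- The kernel of `A* A / (L + 1)^(1/2)`. -/
noncomputable def kk (m n : ℕ) : ℝ :=
  (√((blk m : ℝ) + 1))⁻¹ * (g m * g n * (((B (blk m)).filter fun c => inc m c ∧ inc n c).card : ℝ))

lemma kk_nonneg (m n : ℕ) : 0 ≤ kk m n := by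
  unfold kk
  have := g_pos m
  have := g_pos n
  positivity

lemma kk_eq_zero {m n : ℕ} (h : blk m ≠ blk n) : kk m n = 0 := by
  unfold kk
  have : (B (blk m)).filter (fun c => inc m c ∧ inc n c) = ∅ := by
    apply Finset.filter_eq_empty_iff.2
    rintro c - ⟨h1, h2⟩
    exact h (h1.1.trans h2.1.symm)
  rw [this]
  simp

lemma kk_symm (m n : ℕ) : kk m n = kk n m := by
  by_cases h : blk m = blk n
  · unfold kk
    rw [h, mul_comm (g m) (g n)]
    simp only [and_comm]
  · rw [kk_eq_zero h, kk_eq_zero (Ne.symm h)]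

/-- The synthesis of `f` on the cells. -/
noncomputable def G (A : Finset ℕ) (f : ℕ → ℝ) (c : ℕ) : ℝ :=
  ∑ n ∈ A with inc n c, g n * f n

lemma sum_kk (A : Finset ℕ) (f : ℕ → ℝ) (m : ℕ) :
    ∑ n ∈ A, kk m n * f n =
      (√((blk m : ℝ) + 1))⁻¹ * (g m * ∑ c ∈ B (blk m) with inc m c, G A f c) := by
  have hc : ∀ n, (((B (blk m)).filter fun c => inc m c ∧ inc n c).card : ℝ) =
      ∑ c ∈ B (blk m) with inc m c, if inc n c then (1 : ℝ) else 0 := by
    intro n
    rw [← Finset.filter_filter, Finset.card_filter]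
    push_cast
    rfl
  calc ∑ n ∈ A, kk m n * f n
      = ∑ n ∈ A, (√((blk m : ℝ) + 1))⁻¹ *
          (g m * ∑ c ∈ B (blk m) with inc m c, if inc n c then g n * f n else 0) := by
        refine Finset.sum_congr rfl fun n _ => ?_
        unfold kk
        rw [hc n]
        have : (∑ c ∈ B (blk m) with inc m c, if inc n c then (1 : ℝ) else 0) * (g n * f n)
            = ∑ c ∈ B (blk m) with inc m c, if inc n c then g n * f n else 0 := by
          rw [Finset.sum_mul]
          simp only [ite_mul, one_mul, zero_mul]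
        rw [← this]
        ring
    _ = (√((blk m : ℝ) + 1))⁻¹ *
          (g m * ∑ n ∈ A, ∑ c ∈ B (blk m) with inc m c, if inc n c then g n * f n else 0) := by
        rw [← Finset.mul_sum, ← Finset.mul_sum]
    _ = _ := by
        rw [Finset.sum_comm]
        simp only [G, Finset.sum_filter]

lemma card_real_le (n : ℕ) (U : Finset ℕ) :
    (1 / 2 : ℝ) ^ val n * ((U.filter (inc n)).card : ℝ) ≤ 2 := by
  have h : ((U.filter (inc n)).card : ℝ) ≤ 2 ^ (val n + 1) := by exact_mod_cast card_inc_le n U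
  calc (1 / 2 : ℝ) ^ val n * ((U.filter (inc n)).card : ℝ)
      ≤ (1 / 2 : ℝ) ^ val n * 2 ^ (val n + 1) := by gcongr
    _ = 2 := by
      rw [pow_succ, ← mul_assoc, ← mul_pow]
      norm_num

lemma inv_sqrt_sq (m : ℕ) : ((√((blk m : ℝ) + 1))⁻¹) ^ 2 = ((blk m : ℝ) + 1)⁻¹ := by
  rw [inv_pow, Real.sq_sqrt (by positivity)]

/-- The norm of the kernel operator is controlled by the norm of the synthesis. -/
lemma syn (A : Finset ℕ) (f : ℕ → ℝ) (X : ℝ) (hX : ∀ U : Finset ℕ, ∑ c ∈ U, G A f c ^ 2 ≤ X)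
    (M : Finset ℕ) : ∑ m ∈ M, (∑ n ∈ A, kk m n * f n) ^ 2 ≤ 2 * X := by
  have h1 : ∀ m ∈ M, (∑ n ∈ A, kk m n * f n) ^ 2 ≤
      ∑ c ∈ M.biUnion fun m => B (blk m),
        if inc m c then 2 * ((blk c : ℝ) + 1)⁻¹ * G A f c ^ 2 else 0 := by
    intro m hm
    rw [sum_kk, mul_pow, mul_pow, inv_sqrt_sq, g_sq]
    have h2 := sq_sum_le_card_mul_sum_sq (s := (B (blk m)).filter (inc m)) (f := G A f)
    have h3 := card_real_le m (B (blk m))
    have h4 : 0 ≤ ∑ c ∈ B (blk m) with inc m c, G A f c ^ 2 :=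
      Finset.sum_nonneg fun _ _ => sq_nonneg _
    have h5 : (1 / 2 : ℝ) ^ val m * (∑ c ∈ B (blk m) with inc m c, G A f c) ^ 2
        ≤ 2 * ∑ c ∈ B (blk m) with inc m c, G A f c ^ 2 := by
      calc (1 / 2 : ℝ) ^ val m * (∑ c ∈ B (blk m) with inc m c, G A f c) ^ 2
          ≤ (1 / 2 : ℝ) ^ val m * ((((B (blk m)).filter (inc m)).card : ℝ) *
            ∑ c ∈ B (blk m) with inc m c, G A f c ^ 2) := by gcongr
        _ = ((1 / 2 : ℝ) ^ val m * (((B (blk m)).filter (inc m)).card : ℝ)) *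
            ∑ c ∈ B (blk m) with inc m c, G A f c ^ 2 := by ring
        _ ≤ _ := by gcongr
    calc ((blk m : ℝ) + 1)⁻¹ * ((1 / 2 : ℝ) ^ val m *
          (∑ c ∈ B (blk m) with inc m c, G A f c) ^ 2)
        ≤ ((blk m : ℝ) + 1)⁻¹ * (2 * ∑ c ∈ B (blk m) with inc m c, G A f c ^ 2) := by gcongr
      _ = ∑ c ∈ B (blk m), if inc m c then 2 * ((blk c : ℝ) + 1)⁻¹ * G A f c ^ 2 else 0 := by
          rw [Finset.mul_sum, Finset.mul_sum, Finset.sum_filter]
          refine Finset.sum_congr rfl fun c hc => ?_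
          rw [mem_B] at hc
          rw [hc]
          split_ifs <;> ring
      _ ≤ _ := by
          apply Finset.sum_le_sum_of_subset_of_nonneg
          · exact Finset.subset_biUnion_of_mem (fun m => B (blk m)) hm
          · intro c _ _
            split_ifs <;> positivity
  refine (Finset.sum_le_sum h1).trans ?_
  rw [Finset.sum_comm]
  refine le_trans ?_ (mul_le_mul_of_nonneg_left (hX (M.biUnion fun m => B (blk m))) (by norm_num))
  rw [Finset.mul_sum]
  refine Finset.sum_le_sum fun c _ => ?_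
  rw [← Finset.sum_filter, Finset.sum_const, nsmul_eq_mul]
  have h6 : ((M.filter fun m => inc m c).card : ℝ) ≤ (blk c : ℝ) + 1 := by
    exact_mod_cast card_chain_le c M
  have h7 : ((M.filter fun m => inc m c).card : ℝ) * ((blk c : ℝ) + 1)⁻¹ ≤ 1 := by
    rw [← div_eq_mul_inv, div_le_one (by positivity)]
    exact h6
  calc ((M.filter fun m => inc m c).card : ℝ) * (2 * ((blk c : ℝ) + 1)⁻¹ * G A f c ^ 2)
      = (((M.filter fun m => inc m c).card : ℝ) * ((blk c : ℝ) + 1)⁻¹) * (2 * G A f c ^ 2) := by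
        ring
    _ ≤ 1 * (2 * G A f c ^ 2) := by gcongr
    _ = _ := one_mul _

lemma sum_pow_le (Q : Finset ℕ) : ∑ i ∈ Q, r ^ i ≤ 3.416 := by
  have h1 : r < 1 := by have := r_lt; linarith
  have hs := summable_geometric_of_lt_one r_pos.le h1
  refine (hs.sum_le_tsum Q (fun i _ => pow_nonneg r_pos.le i)).trans ?_
  rw [tsum_geometric_of_lt_one r_pos.le h1]
  exact inv_one_sub_r

lemma sum_pow_comp_le (Q : Finset ℕ) (φ : ℕ → ℕ) (hφ : Set.InjOn φ (Q : Set ℕ)) :
    ∑ i ∈ Q, r ^ φ i ≤ 3.416 := by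
  rw [← Finset.sum_image (f := fun i => r ^ i) hφ]
  exact sum_pow_le _

lemma sum_dist_le (v : ℕ) (A : Finset ℕ) (hA : Set.InjOn val (A : Set ℕ)) :
    ∑ n ∈ A, r ^ ((v - val n) + (val n - v)) ≤ 6.832 := by
  rw [← Finset.sum_filter_add_sum_filter_not A (fun n => val n ≤ v)]
  have h1 : ∑ n ∈ A with val n ≤ v, r ^ ((v - val n) + (val n - v)) ≤ 3.416 := by
    apply sum_pow_comp_le _ (fun n => (v - val n) + (val n - v))
    intro a ha b hb hab
    rw [Finset.mem_coe, Finset.mem_filter] at ha hb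
    apply hA ha.1 hb.1
    have := ha.2
    have := hb.2
    simp only at hab
    omega
  have h2 : ∑ n ∈ A with ¬ val n ≤ v, r ^ ((v - val n) + (val n - v)) ≤ 3.416 := by
    apply sum_pow_comp_le _ (fun n => (v - val n) + (val n - v))
    intro a ha b hb hab
    rw [Finset.mem_coe, Finset.mem_filter] at ha hb
    apply hA ha.1 hb.1
    have := ha.2
    have := hb.2
    simp only at hab
    omega
  linarith

lemma sq_sum_pow_le (Q : Finset ℕ) : (∑ v ∈ Q, r ^ v) ^ 2 ≤ 12 * ∑ v ∈ Q, (1 / 2 : ℝ) ^ v := by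
  rcases Q.eq_empty_or_nonempty with h | h
  · rw [h]; simp
  · set m := Q.min' h with hm
    have h1 : ∑ v ∈ Q, r ^ v ≤ r ^ m * 3.416 := by
      calc ∑ v ∈ Q, r ^ v = r ^ m * ∑ v ∈ Q, r ^ (v - m) := by
            rw [Finset.mul_sum]
            refine Finset.sum_congr rfl fun v hv => ?_
            rw [← pow_add]
            congr 1
            have := Q.min'_le v hv
            omega
        _ ≤ _ := by
            have h2 := sum_pow_comp_le Q (fun v => v - m) (by
              intro a ha b hb hab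
              have h3 := Q.min'_le a ha
              have h4 := Q.min'_le b hb
              simp only at hab
              omega)
            have h5 : 0 ≤ r ^ m := pow_nonneg r_pos.le _
            gcongr
    have h0 : 0 ≤ ∑ v ∈ Q, r ^ v := Finset.sum_nonneg fun v _ => pow_nonneg r_pos.le v
    have h6 : (1 / 2 : ℝ) ^ m ≤ ∑ v ∈ Q, (1 / 2 : ℝ) ^ v :=
      Finset.single_le_sum (f := fun v => (1 / 2 : ℝ) ^ v) (fun v _ => by positivity)
        (Q.min'_mem h)
    have h7 : (r ^ m) ^ 2 = (1 / 2 : ℝ) ^ m := by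
      rw [← pow_mul, mul_comm, pow_mul, sq, r_mul_r]
    calc (∑ v ∈ Q, r ^ v) ^ 2 ≤ (r ^ m * 3.416) ^ 2 := by gcongr
      _ = (1 / 2 : ℝ) ^ m * 3.416 ^ 2 := by rw [mul_pow, h7]
      _ ≤ (1 / 2 : ℝ) ^ m * 12 := by
          have : 0 < (1 / 2 : ℝ) ^ m := by positivity
          nlinarith
      _ ≤ _ := by linarith

lemma inc_injOn (c : ℕ) (A : Finset ℕ) : Set.InjOn val ((A.filter fun n => inc n c : Finset ℕ) : Set ℕ) := by
  intro a ha b hb hab
  rw [Finset.mem_coe, Finset.mem_filter] at ha hb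
  exact inc_unique ha.2 hb.2 hab

lemma G_one (A U : Finset ℕ) : ∑ c ∈ U, G A (fun _ => 1) c ^ 2 ≤ 24 * (A.card : ℝ) := by
  have h1 : ∀ c ∈ U, G A (fun _ => 1) c ^ 2 ≤
      ∑ n ∈ A, if inc n c then 12 * (1 / 2 : ℝ) ^ val n else 0 := by
    intro c _
    have h2 := sq_sum_pow_le ((A.filter fun n => inc n c).image val)
    rw [Finset.sum_image (inc_injOn c A), Finset.sum_image (inc_injOn c A)] at h2
    unfold G g
    simp only [mul_one]
    rw [← Finset.sum_filter, ← Finset.mul_sum]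
    exact h2
  refine (Finset.sum_le_sum h1).trans ?_
  rw [Finset.sum_comm]
  have h3 : ∀ n ∈ A, (∑ c ∈ U, if inc n c then 12 * (1 / 2 : ℝ) ^ val n else 0) ≤ 24 := by
    intro n _
    rw [← Finset.sum_filter, Finset.sum_const, nsmul_eq_mul]
    have := card_real_le n U
    linarith
  refine (Finset.sum_le_sum h3).trans ?_
  rw [Finset.sum_const, nsmul_eq_mul]
  linarith

/-- Democracy estimate. -/
lemma kk_dem (A M : Finset ℕ) : ∑ m ∈ M, (∑ n ∈ A, kk m n) ^ 2 ≤ 48 * (A.card : ℝ) := by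
  have := syn A (fun _ => 1) _ (G_one A) M
  simp only [mul_one] at this
  linarith

lemma card_two_le (n n' : ℕ) (U : Finset ℕ) :
    g n * g n' * ((U.filter fun c => inc n c ∧ inc n' c).card : ℝ) ≤
      2 * r ^ ((val n - val n') + (val n' - val n)) := by
  have key : ∀ a b : ℕ, val a ≤ val b →
      g a * g b * ((U.filter fun c => inc a c ∧ inc b c).card : ℝ) ≤ 2 * r ^ (val b - val a) := by
    intro a b hab
    have h1 : ((U.filter fun c => inc a c ∧ inc b c).card : ℝ) ≤ ((U.filter (inc a)).card : ℝ) := by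
      norm_cast
      apply Finset.card_le_card
      intro c hc
      rw [Finset.mem_filter] at hc ⊢
      exact ⟨hc.1, hc.2.1⟩
    have h2 := card_real_le a U
    have h3 : g a * g b = (1 / 2 : ℝ) ^ val a * r ^ (val b - val a) := by
      rw [← g_sq]
      unfold g
      rw [← pow_mul, ← pow_add, ← pow_add]
      congr 1
      omega
    have h4 : 0 ≤ r ^ (val b - val a) := pow_nonneg r_pos.le _
    calc g a * g b * ((U.filter fun c => inc a c ∧ inc b c).card : ℝ)
        ≤ g a * g b * ((U.filter (inc a)).card : ℝ) := by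
          have := g_pos a
          have := g_pos b
          gcongr
      _ = ((1 / 2 : ℝ) ^ val a * ((U.filter (inc a)).card : ℝ)) * r ^ (val b - val a) := by
          rw [h3]; ring
      _ ≤ _ := by gcongr
  rcases le_total (val n) (val n') with h | h
  · have := key n n' h
    rwa [Nat.sub_eq_zero_of_le h, zero_add]
  · have := key n' n h
    rw [Nat.sub_eq_zero_of_le h, add_zero]
    simp only [and_comm, mul_comm] at this ⊢
    exact this

lemma G_chain (A : Finset ℕ) (t : ℕ) (hA : ∀ n ∈ A, inc n t) (f : ℕ → ℝ) (U : Finset ℕ) :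
    ∑ c ∈ U, G A f c ^ 2 ≤ 14 * ∑ n ∈ A, f n ^ 2 := by
  have hinj : Set.InjOn val (A : Set ℕ) := by
    intro a ha b hb hab
    exact inc_unique (hA a ha) (hA b hb) hab
  have h1 : ∑ c ∈ U, G A f c ^ 2 = ∑ n ∈ A, ∑ n' ∈ A,
      (g n * g n' * ((U.filter fun c => inc n c ∧ inc n' c).card : ℝ)) * (f n * f n') := by
    have h2 : ∀ c ∈ U, G A f c ^ 2 = ∑ n ∈ A, ∑ n' ∈ A,
        (if inc n c ∧ inc n' c then (1 : ℝ) else 0) * (g n * g n' * (f n * f n')) := by
      intro c _
      unfold G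
      rw [sq, Finset.sum_filter, Finset.sum_mul_sum]
      refine Finset.sum_congr rfl fun n _ => Finset.sum_congr rfl fun n' _ => ?_
      by_cases hn : inc n c <;> by_cases hn' : inc n' c <;> simp [hn, hn']
      ring
    rw [Finset.sum_congr rfl h2, Finset.sum_comm]
    refine Finset.sum_congr rfl fun n _ => ?_
    rw [Finset.sum_comm]
    refine Finset.sum_congr rfl fun n' _ => ?_
    rw [← Finset.sum_mul, Finset.card_filter]
    push_cast
    ring
  rw [h1]
  have h3 : ∀ n ∈ A, ∀ n' ∈ A,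
      (g n * g n' * ((U.filter fun c => inc n c ∧ inc n' c).card : ℝ)) * (f n * f n') ≤
      r ^ ((val n - val n') + (val n' - val n)) * f n ^ 2 +
      r ^ ((val n' - val n) + (val n - val n')) * f n' ^ 2 := by
    intro n _ n' _
    have h4 := card_two_le n n' U
    have h5 : 0 ≤ g n * g n' * ((U.filter fun c => inc n c ∧ inc n' c).card : ℝ) := by
      have := g_pos n
      have := g_pos n'
      positivity
    have h6 : f n * f n' ≤ (f n ^ 2 + f n' ^ 2) / 2 := by nlinarith [sq_nonneg (f n - f n')]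
    calc (g n * g n' * ((U.filter fun c => inc n c ∧ inc n' c).card : ℝ)) * (f n * f n')
        ≤ (g n * g n' * ((U.filter fun c => inc n c ∧ inc n' c).card : ℝ)) *
          ((f n ^ 2 + f n' ^ 2) / 2) := by gcongr
      _ ≤ (2 * r ^ ((val n - val n') + (val n' - val n))) * ((f n ^ 2 + f n' ^ 2) / 2) := by
          gcongr
      _ = _ := by rw [add_comm (val n' - val n) (val n - val n')]; ring
  refine (Finset.sum_le_sum fun n hn => Finset.sum_le_sum fun n' hn' => h3 n hn n' hn').trans ?_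
  have h7 : ∀ n ∈ A, ∑ n' ∈ A, r ^ ((val n - val n') + (val n' - val n)) * f n ^ 2
      ≤ 6.832 * f n ^ 2 := by
    intro n _
    rw [← Finset.sum_mul]
    have := sum_dist_le (val n) A hinj
    gcongr
  have h8 : ∑ n ∈ A, ∑ n' ∈ A, (r ^ ((val n - val n') + (val n' - val n)) * f n ^ 2 +
      r ^ ((val n' - val n) + (val n - val n')) * f n' ^ 2) =
      2 * ∑ n ∈ A, ∑ n' ∈ A, r ^ ((val n - val n') + (val n' - val n)) * f n ^ 2 := by
    simp only [Finset.sum_add_distrib]
    rw [two_mul]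
    congr 1
    rw [Finset.sum_comm]
  rw [h8]
  have h9 := Finset.sum_le_sum h7
  rw [← Finset.mul_sum] at h9
  have h10 : 0 ≤ ∑ n ∈ A, f n ^ 2 := Finset.sum_nonneg fun _ _ => sq_nonneg _
  linarith

lemma kk_chain (A M : Finset ℕ) (t : ℕ) (f : ℕ → ℝ) :
    ∑ m ∈ M, (∑ n ∈ A with inc n t, kk m n * f n) ^ 2 ≤ 28 * ∑ n ∈ A with inc n t, f n ^ 2 := by
  have := syn (A.filter fun n => inc n t) f _
    (G_chain (A.filter fun n => inc n t) t (fun n hn => (Finset.mem_filter.1 hn).2) f) M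
  linarith

lemma kk_chain' (A M : Finset ℕ) (t : ℕ) (f : ℕ → ℝ) :
    ∑ m ∈ M with inc m t, (∑ n ∈ A, kk m n * f n) ^ 2 ≤ 28 * ∑ n ∈ A, f n ^ 2 := by
  set b : ℕ → ℝ := fun m => ∑ n ∈ A, kk m n * f n with hb
  set T : ℝ := ∑ m ∈ M with inc m t, b m ^ 2 with hT
  have hT0 : 0 ≤ T := Finset.sum_nonneg fun _ _ => sq_nonneg _
  have hF0 : 0 ≤ ∑ n ∈ A, f n ^ 2 := Finset.sum_nonneg fun _ _ => sq_nonneg _
  have h1 : T = ∑ n ∈ A, f n * ∑ m ∈ M with inc m t, kk n m * b m := by
    rw [hT]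
    have : ∀ m ∈ M.filter (fun m => inc m t), b m ^ 2 = ∑ n ∈ A, f n * (kk n m * b m) := by
      intro m _
      rw [sq]
      conv_lhs => rw [hb]
      simp only
      rw [Finset.sum_mul]
      refine Finset.sum_congr rfl fun n _ => ?_
      rw [kk_symm m n, hb]
      ring
    rw [Finset.sum_congr rfl this, Finset.sum_comm]
    refine Finset.sum_congr rfl fun n _ => ?_
    rw [Finset.mul_sum]
  have h2 := kk_chain M A t b
  have h3 := Finset.sum_mul_sq_le_sq_mul_sq A f (fun n => ∑ m ∈ M with inc m t, kk n m * b m)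
  rw [← h1] at h3
  have h4 : T ^ 2 ≤ (∑ n ∈ A, f n ^ 2) * (28 * T) := h3.trans (by gcongr)
  rcases hT0.eq_or_lt with h | h
  · rw [← h]; positivity
  · nlinarith

/-- The commutator estimate. -/
lemma kk_sep (A M : Finset ℕ) (t : ℕ) (f : ℕ → ℝ) (hf : ∀ n, 0 ≤ f n) :
    ∑ m ∈ M, (∑ n ∈ A, (if (m < t ∧ t ≤ n) ∨ (n < t ∧ t ≤ m) then kk m n * f n else 0)) ^ 2
      ≤ 112 * ∑ n ∈ A, f n ^ 2 := by
  have h1 : ∀ m ∈ M,
      (∑ n ∈ A, (if (m < t ∧ t ≤ n) ∨ (n < t ∧ t ≤ m) then kk m n * f n else 0)) ^ 2 ≤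
      2 * (∑ n ∈ A with inc n t, kk m n * f n) ^ 2 +
      2 * (if inc m t then (∑ n ∈ A, kk m n * f n) ^ 2 else 0) := by
    intro m _
    have h2 : ∀ n, (if (m < t ∧ t ≤ n) ∨ (n < t ∧ t ≤ m) then kk m n * f n else 0) ≤
        (if inc n t then kk m n * f n else 0) + (if inc m t then kk m n * f n else 0) := by
      intro n
      have h0 : 0 ≤ kk m n * f n := mul_nonneg (kk_nonneg m n) (hf n)
      by_cases hs : (m < t ∧ t ≤ n) ∨ (n < t ∧ t ≤ m)
      · rw [if_pos hs]
        by_cases hex : ∃ c, inc m c ∧ inc n c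
        · obtain ⟨c, hc1, hc2⟩ := hex
          have h3 : inc m t ∨ inc n t := by
            rcases hs with hs | hs
            · exact inc_of_sep hc1 hc2 hs
            · exact (inc_of_sep hc2 hc1 hs).symm
          rcases h3 with h3 | h3
          · rw [if_pos h3]
            split_ifs <;> linarith
          · rw [if_pos h3]
            split_ifs <;> linarith
        · have : kk m n = 0 := by
            unfold kk
            have : (B (blk m)).filter (fun c => inc m c ∧ inc n c) = ∅ := by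
              apply Finset.filter_eq_empty_iff.2
              rintro c - hc
              exact hex ⟨c, hc⟩
            rw [this]
            simp
          rw [this]
          simp
      · rw [if_neg hs]
        split_ifs <;> linarith
    have h3 : 0 ≤ ∑ n ∈ A, (if (m < t ∧ t ≤ n) ∨ (n < t ∧ t ≤ m) then kk m n * f n else 0) := by
      refine Finset.sum_nonneg fun n _ => ?_
      have h0 : 0 ≤ kk m n * f n := mul_nonneg (kk_nonneg m n) (hf n)
      split_ifs <;> linarith
    have h4 := Finset.sum_le_sum fun n (_ : n ∈ A) => h2 n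
    have hx : ∑ n ∈ A, (if inc n t then kk m n * f n else 0) =
        ∑ n ∈ A with inc n t, kk m n * f n := (Finset.sum_filter _ _).symm
    rw [Finset.sum_add_distrib, hx] at h4
    set x := ∑ n ∈ A with inc n t, kk m n * f n
    by_cases hm : inc m t
    · simp only [if_pos hm] at h4 ⊢
      set y := ∑ n ∈ A, kk m n * f n
      nlinarith [sq_nonneg (x - y)]
    · simp only [if_neg hm] at h4 ⊢
      rw [Finset.sum_const_zero, add_zero] at h4
      nlinarith
  refine (Finset.sum_le_sum h1).trans ?_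
  rw [Finset.sum_add_distrib, ← Finset.mul_sum, ← Finset.mul_sum, ← Finset.sum_filter]
  have h5 := kk_chain A M t f
  have h6 := kk_chain' A M t f
  have h7 : ∑ n ∈ A with inc n t, f n ^ 2 ≤ ∑ n ∈ A, f n ^ 2 :=
    Finset.sum_le_sum_of_subset_of_nonneg (Finset.filter_subset _ _) fun _ _ _ => sq_nonneg _
  linarith

end Pool.Agent.Lib.MPc77635.SC
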