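import Pool.Agent.Lib.MP_c77635_an.SC.Core

/-!
# Lower bounds for the kernel and counting in a block
-/

open Finset

namespace Pool.Agent.Lib.MPc77635.SC

lemma card_B (L : ℕ) : (B L).card = 2 ^ L := by
  unfold B
  rw [Nat.card_Ico, pow_succ]
  have : 1 ≤ 2 ^ L := Nat.one_le_two_pow
  omega

/-- every cell lies in an interval of each scale -/
lemma card_cls (L c : ℕ) (hc : blk c = L) (P : ℕ → Prop) [DecidablePred P] :
    ((Finset.range (L + 1)).filter P).card ≤
      ((B L).filter fun n => P (val n) ∧ inc n c).card := by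
  have hsub : (Finset.range (L + 1)).filter P ⊆
      ((B L).filter fun n => P (val n) ∧ inc n c).image val := by
    intro v hv
    rw [Finset.mem_filter, Finset.mem_range] at hv
    obtain ⟨n, h1, h2, h3⟩ := exists_inc c v (by omega)
    rw [Finset.mem_image]
    refine ⟨n, ?_, h2⟩
    rw [Finset.mem_filter, mem_B, h1, hc, h2]
    exact ⟨rfl, hv.2, h3⟩
  exact (Finset.card_le_card hsub).trans Finset.card_image_le

lemma card_odd (l : ℕ) : l + 1 ≤ ((Finset.range (2 * l + 2)).filter fun v => Odd v).card := by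
  have : (Finset.range (l + 1)).image (fun j => 2 * j + 1) ⊆
      (Finset.range (2 * l + 2)).filter fun v => Odd v := by
    intro v hv
    obtain ⟨j, hj, rfl⟩ := Finset.mem_image.1 hv
    rw [Finset.mem_range] at hj
    rw [Finset.mem_filter, Finset.mem_range]
    exact ⟨by omega, ⟨j, rfl⟩⟩
  have h := Finset.card_le_card this
  rwa [Finset.card_image_of_injective _ (fun a b h => by simpa using h), Finset.card_range] at h

lemma card_even (l : ℕ) : l + 1 ≤ ((Finset.range (2 * l + 2)).filter fun v => Even v).card := by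
  have : (Finset.range (l + 1)).image (fun j => 2 * j) ⊆
      (Finset.range (2 * l + 2)).filter fun v => Even v := by
    intro v hv
    obtain ⟨j, hj, rfl⟩ := Finset.mem_image.1 hv
    rw [Finset.mem_range] at hj
    rw [Finset.mem_filter, Finset.mem_range]
    exact ⟨by omega, ⟨j, by ring⟩⟩
  have h := Finset.card_le_card this
  rwa [Finset.card_image_of_injective _ (fun a b h => by simpa using h), Finset.card_range] at h

/-- `2 ^ (val n / 2)` -/
noncomputable def ta (n : ℕ) : ℝ := (g n)⁻¹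

lemma ta_pos (n : ℕ) : 0 < ta n := inv_pos.2 (g_pos n)

lemma ta_sq (n : ℕ) : ta n ^ 2 = 2 ^ val n := by
  unfold ta
  rw [inv_pow, g_sq, ← inv_pow]
  norm_num

lemma g_mul_ta (n : ℕ) : g n * ta n = 1 := mul_inv_cancel₀ (g_pos n).ne'

lemma kk_low (l m : ℕ) (hm : blk m = 2 * l + 1) :
    (√(2 * (l : ℝ) + 2))⁻¹ * (((l : ℝ) + 1) * ta m) ≤
      ∑ n ∈ (B (2 * l + 1)).filter (fun n => Odd (val n)), kk m n * ta n := by
  rw [sum_kk, hm]
  have h1 : ∀ c ∈ (B (2 * l + 1)).filter (inc m),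
      (l : ℝ) + 1 ≤ G ((B (2 * l + 1)).filter fun n => Odd (val n)) ta c := by
    intro c hc
    rw [Finset.mem_filter, mem_B] at hc
    unfold G
    simp only [g_mul_ta]
    rw [Finset.sum_const, nsmul_eq_mul, mul_one, Finset.filter_filter]
    have h2 := (card_odd l).trans (card_cls (2 * l + 1) c hc.1 Odd)
    exact_mod_cast h2
  have h3 : (2 : ℝ) ^ val m * ((l : ℝ) + 1) ≤ ∑ c ∈ (B (2 * l + 1)).filter (inc m),
      G ((B (2 * l + 1)).filter fun n => Odd (val n)) ta c := by
    refine le_trans ?_ (Finset.card_nsmul_le_sum _ _ _ h1)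
    rw [nsmul_eq_mul]
    have h4 := le_card_inc m
    rw [hm] at h4
    have h5 : (2 : ℝ) ^ val m ≤ (((B (2 * l + 1)).filter (inc m)).card : ℝ) := by
      exact_mod_cast h4
    gcongr
  have h6 : ((2 * l + 1 : ℕ) : ℝ) + 1 = 2 * (l : ℝ) + 2 := by push_cast; ring
  rw [h6]
  have h7 : ta m = g m * 2 ^ val m := by
    rw [← ta_sq, sq, ← mul_assoc, g_mul_ta, one_mul]
  have h8 := g_pos m
  calc (√(2 * (l : ℝ) + 2))⁻¹ * (((l : ℝ) + 1) * ta m)
      = (√(2 * (l : ℝ) + 2))⁻¹ * (g m * (2 ^ val m * ((l : ℝ) + 1))) := by rw [h7]; ring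
    _ ≤ _ := by gcongr

/-- double counting -/
lemma sum_card_inc (A U : Finset ℕ) :
    ∑ n ∈ A, ((U.filter (inc n)).card : ℝ) = ∑ c ∈ U, ((A.filter fun n => inc n c).card : ℝ) := by
  simp only [Finset.card_filter]
  push_cast
  rw [Finset.sum_comm]

lemma sum_ta_even (l : ℕ) : (2 : ℝ) ^ (2 * l + 1) * ((l : ℝ) + 1) ≤
    2 * ∑ m ∈ (B (2 * l + 1)).filter (fun m => Even (val m)), ta m ^ 2 := by
  have h1 : ∀ m ∈ (B (2 * l + 1)).filter (fun m => Even (val m)),
      (((B (2 * l + 1)).filter (inc m)).card : ℝ) ≤ 2 * ta m ^ 2 := by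
    intro m _
    rw [ta_sq, ← pow_succ']
    exact_mod_cast card_inc_le m _
  have h2 := Finset.sum_le_sum h1
  rw [sum_card_inc, ← Finset.mul_sum] at h2
  refine le_trans ?_ h2
  have h3 : ∀ c ∈ B (2 * l + 1), (l : ℝ) + 1 ≤
      ((((B (2 * l + 1)).filter (fun m => Even (val m))).filter fun n => inc n c).card : ℝ) := by
    intro c hc
    rw [mem_B] at hc
    rw [Finset.filter_filter]
    exact_mod_cast (card_even l).trans (card_cls (2 * l + 1) c hc Even)
  refine le_trans ?_ (Finset.card_nsmul_le_sum _ _ _ h3)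
  rw [card_B, nsmul_eq_mul]
  push_cast
  exact le_rfl

lemma sum_ta_le (L : ℕ) (P : ℕ → Prop) [DecidablePred P] :
    ∑ n ∈ (B L).filter P, ta n ^ 2 ≤ 2 ^ L * ((L : ℝ) + 1) := by
  have h0 : ∑ n ∈ (B L).filter P, ta n ^ 2 ≤ ∑ n ∈ B L, ta n ^ 2 :=
    Finset.sum_le_sum_of_subset_of_nonneg (Finset.filter_subset _ _) fun _ _ _ => sq_nonneg _
  refine h0.trans ?_
  have h1 : ∀ n ∈ B L, ta n ^ 2 ≤ (((B L).filter (inc n)).card : ℝ) := by
    intro n hn
    rw [mem_B] at hn
    rw [ta_sq]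
    have := le_card_inc n
    rw [hn] at this
    exact_mod_cast this
  refine (Finset.sum_le_sum h1).trans ?_
  rw [sum_card_inc]
  have h3 : ∀ c ∈ B L, (((B L).filter fun n => inc n c).card : ℝ) ≤ (L : ℝ) + 1 := by
    intro c hc
    rw [mem_B] at hc
    have := card_chain_le c (B L)
    rw [hc] at this
    exact_mod_cast this
  refine (Finset.sum_le_card_nsmul _ _ _ h3).trans ?_
  rw [card_B, nsmul_eq_mul]
  push_cast
  exact le_rfl

/-- Few indices of a block have a large scale. -/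
lemma card_val_ge (L v : ℕ) (hv : v ≤ L) : ((B L).filter fun n => v ≤ val n).card ≤ 2 ^ (L - v) := by
  have hsub : ((B L).filter fun n => v ≤ val n) ⊆
      (Finset.Ico (2 ^ (L - v)) (2 ^ (L - v) + 2 ^ (L - v))).image fun k => 2 ^ v * k - 1 := by
    intro n hn
    rw [Finset.mem_filter, mem_B] at hn
    obtain ⟨hn, hv2⟩ := hn
    have h1 : 2 ^ v ∣ n + 1 := (pow_dvd_pow 2 hv2).trans pow_padicValNat_dvd
    obtain ⟨k, hk⟩ := h1
    rw [Finset.mem_image]
    refine ⟨k, ?_, by omega⟩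
    have h2 := pow_blk_le n
    have h3 := lt_pow_blk n
    rw [hn] at h2 h3
    have h4 : 2 ^ L = 2 ^ v * 2 ^ (L - v) := by
      rw [← pow_add]; congr 1; omega
    have h5 : 2 ^ (L + 1) = 2 ^ v * (2 ^ (L - v) + 2 ^ (L - v)) := by
      rw [pow_succ, h4]; ring
    rw [hk] at h2 h3
    rw [h4] at h2
    rw [h5] at h3
    rw [Finset.mem_Ico]
    exact ⟨Nat.le_of_mul_le_mul_left h2 (by positivity), Nat.lt_of_mul_lt_mul_left h3⟩
  refine (Finset.card_le_card hsub).trans (Finset.card_image_le.trans ?_)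
  rw [Nat.card_Ico, Nat.add_sub_cancel]

/-- Many indices of a block have the scale `v`. -/
lemma le_card_val_eq (L v : ℕ) (hv : v < L) :
    2 ^ (L - v - 1) ≤ ((B L).filter fun n => val n = v).card := by
  have h1 : ∀ n ∈ (B L).filter (fun n => val n = v), ((B L).filter (inc n)).card ≤ 2 ^ (v + 1) := by
    intro n hn
    rw [Finset.mem_filter] at hn
    have := card_inc_le n (B L)
    rwa [hn.2] at this
  have h2 := Finset.sum_le_card_nsmul _ _ _ h1
  have h3 : ∑ n ∈ (B L).filter (fun n => val n = v), ((B L).filter (inc n)).card =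
      ∑ c ∈ B L, (((B L).filter (fun n => val n = v)).filter fun n => inc n c).card := by
    have := sum_card_inc ((B L).filter (fun n => val n = v)) (B L)
    exact_mod_cast this
  have h4 : ∀ c ∈ B L, 1 ≤
      (((B L).filter (fun n => val n = v)).filter fun n => inc n c).card := by
    intro c hc
    rw [mem_B] at hc
    rw [Nat.one_le_iff_ne_zero, ← Nat.pos_iff_ne_zero, Finset.card_pos]
    obtain ⟨n, e1, e2, e3⟩ := exists_inc c v (by omega)
    refine ⟨n, ?_⟩
    rw [Finset.mem_filter, Finset.mem_filter, mem_B]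
    exact ⟨⟨e1.trans hc, e2⟩, e3⟩
  have h5 := Finset.card_nsmul_le_sum _ _ _ h4
  rw [card_B, smul_eq_mul, mul_one] at h5
  rw [h3, smul_eq_mul] at h2
  have h6 := h5.trans h2
  have h7 : 2 ^ L = 2 ^ (L - v - 1) * 2 ^ (v + 1) := by
    rw [← pow_add]; congr 1; omega
  rw [h7] at h6
  exact Nat.le_of_mul_le_mul_right h6 (by positivity)

/-- `s N = ∑_{j < 2 ^ N} 1 / (j + 1)` -/
noncomputable def s (N : ℕ) : ℝ := ∑ j ∈ Finset.range (2 ^ N), 1 / ((j : ℝ) + 1)

lemma one_le_s (N : ℕ) : 1 ≤ s N := by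
  unfold s
  calc (1 : ℝ) = ∑ j ∈ Finset.range 1, 1 / ((j : ℝ) + 1) := by simp
    _ ≤ _ := Finset.sum_le_sum_of_subset_of_nonneg (by simp)
      (fun j _ _ => by positivity)

lemma s_tendsto : Filter.Tendsto s Filter.atTop Filter.atTop := by
  have h := Real.tendsto_sum_range_one_div_nat_succ_atTop.comp
    (tendsto_pow_atTop_atTop_of_one_lt (one_lt_two (α := ℕ)))
  exact h

lemma s_le (N : ℕ) : s N ≤ (N : ℝ) + 1 := by
  induction N with
  | zero => simp [s]
  | succ N ih =>
    have h1 : s (N + 1) = s N + ∑ j ∈ Finset.range (2 ^ N), 1 / (((2 ^ N + j : ℕ) : ℝ) + 1) := by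
      unfold s
      rw [pow_succ, mul_two, Finset.sum_range_add]
    have h2 : ∑ j ∈ Finset.range (2 ^ N), 1 / (((2 ^ N + j : ℕ) : ℝ) + 1) ≤ 1 := by
      have h3 : ∀ j ∈ Finset.range (2 ^ N), 1 / (((2 ^ N + j : ℕ) : ℝ) + 1) ≤ 1 / 2 ^ N := by
        intro j _
        push_cast
        apply one_div_le_one_div_of_le (by positivity)
        have : (0 : ℝ) ≤ j := by positivity
        linarith
      refine (Finset.sum_le_card_nsmul _ _ _ h3).trans ?_
      rw [Finset.card_range, nsmul_eq_mul]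
      push_cast
      rw [mul_one_div, div_self (by positivity)]
    have h3 : ((N + 1 : ℕ) : ℝ) = (N : ℝ) + 1 := by push_cast; ring
    rw [h1, h3]
    linarith

end Pool.Agent.Lib.MPc77635.SC
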